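import Pool.Agent.U750.Rogers.StripCover

set_option autoImplicit false

namespace Pool.Agent.Results.MP_6b55e5_an.RogersQ1

open MeasureTheory
open Pool.Agent.Results.MP_6b55e5_an.RogersQ2 (IsStrip HasStripCover PropertyS IsBesicovitch Plane)

/-- **Negative answer to Q1.** There is a Besicovitch set without property (S); more
precisely, there is one `ε > 0` such that every Besicovitch set lies in a Besicovitch set that
has no covering by strips of total width less than `ε`. -/
theorem result :
    (∃ E : Set Plane, IsBesicovitch E ∧ ¬ PropertyS E) ∧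
    ∃ ε : ℝ, 0 < ε ∧ ∀ B : Set Plane, IsBesicovitch B →
      ∃ E : Set Plane, B ⊆ E ∧ IsBesicovitch E ∧ ¬ HasStripCover E ε := by
  obtain ⟨-, ⟨F, hF⟩, -⟩ := Pool.Agent.Results.MP_ef0505_an.NotTubeNull.result
  have hCC := Pool.Agent.W710.Tube.CC_ge
  have key : ∀ B : Set Plane, IsBesicovitch B →
      ∃ E : Set Plane, B ⊆ E ∧ IsBesicovitch E ∧
        ¬ HasStripCover E (1 / Pool.Agent.W710.Tube.CC) := by
    rintro B ⟨hb, h0, hseg⟩
    refine ⟨B ∪ F, Set.subset_union_left, ⟨hb.union hF.1.isBounded, ?_, ?_⟩, ?_⟩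
    · exact measure_union_null h0 (Pool.Agent.U750.Rogers.volume_carpet hF)
    · intro e he
      obtain ⟨x, hx⟩ := hseg e he
      exact ⟨x, hx.trans Set.subset_union_left⟩
    · intro h
      exact Pool.Agent.U750.Rogers.carpet_no_cover hF
        (Pool.Agent.U750.Rogers.HasStripCover.anti h Set.subset_union_right)
  refine ⟨?_, 1 / Pool.Agent.W710.Tube.CC, by positivity, key⟩
  obtain ⟨B, hB, -⟩ := Pool.Agent.Results.MP_6b55e5_an.RogersQ2.result
  obtain ⟨E, -, hE, hE'⟩ := key B hB
  exact ⟨E, hE, fun h => hE' (h _ (by positivity))⟩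

end Pool.Agent.Results.MP_6b55e5_an.RogersQ1
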